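import Pool.Agent.Q98.SPN.Stm

/-!
# Project SPN of helper98, job SM (helper277)
-/

set_option autoImplicit false

open Finset

namespace Pool.Agent.Q277.SPN

open Pool.Agent.Q98.SPN Pool.Agent.H172R2.GS

/-- a product over all signs -/
theorem sum_prod {J : Type} [Fintype J] [DecidableEq J] (F : J → Bool → ℝ) :
    ∑ ε : J → Bool, ∏ g, F g (ε g) = ∏ g, ∑ b : Bool, F g b := by
  have h2 := Finset.prod_univ_sum (fun _ : J => (univ : Finset Bool)) (fun g x => F g x)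
  rw [Fintype.piFinset_univ] at h2
  exact h2.symm

theorem sum_exp {J : Type} [Fintype J] [DecidableEq J] (t : ℝ) :
    ∑ ε : J → Bool, Real.exp (t * ∑ g, sg (ε g)) = (2 * Real.cosh t) ^ Fintype.card J := by
  have h1 : ∀ ε : J → Bool, Real.exp (t * ∑ g, sg (ε g)) = ∏ g, Real.exp (t * sg (ε g)) := by
    intro ε
    rw [Finset.mul_sum, Real.exp_sum]
  rw [Finset.sum_congr rfl fun ε _ => h1 ε, sum_prod (fun _ b => Real.exp (t * sg b))]
  have h2 : ∑ b : Bool, Real.exp (t * sg b) = 2 * Real.cosh t := by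
    rw [Fintype.sum_bool, Real.cosh_eq]
    unfold sg
    simp
    ring
  rw [Finset.prod_congr rfl fun g _ => h2, Finset.prod_const, Finset.card_univ]

theorem pow_le_cosh (x : ℝ) (κ : ℕ) : x ^ (2 * κ) ≤ ((2 * κ).factorial : ℝ) * Real.cosh x := by
  have h1 := (Real.hasSum_cosh x)
  have h2 : x ^ (2 * κ) / ((2 * κ).factorial : ℝ) ≤ Real.cosh x :=
    le_hasSum h1 κ fun j _ => div_nonneg (by rw [pow_mul]; positivity) (by positivity)
  have h3 : (0 : ℝ) < ((2 * κ).factorial : ℝ) := by positivity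
  rw [div_le_iff₀ h3] at h2
  linarith

/-- **JOB SM** -/
theorem SM_ok : S_SM := by
  intro J _ _ κ hJ hκ
  obtain ⟨m, hm⟩ : ∃ m, m = Fintype.card J := ⟨_, rfl⟩
  have hm0 : (0 : ℝ) < m := by
    rw [hm]
    exact_mod_cast hJ
  have hκ0 : (0 : ℝ) < κ := by exact_mod_cast hκ
  rw [← hm]
  obtain ⟨t, ht⟩ : ∃ t : ℝ, t = Real.sqrt (2 * κ / m) := ⟨_, rfl⟩
  have ht2 : t ^ 2 = 2 * κ / m := by
    rw [ht, Real.sq_sqrt (by positivity)]
  have ht0 : 0 < t := by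
    rw [ht]
    exact Real.sqrt_pos.2 (by positivity)
  have hf : ((2 * κ).factorial : ℝ) ≤ (2 * κ : ℝ) ^ (2 * κ) := by
    exact_mod_cast Nat.factorial_le_pow (2 * κ)
  -- each term
  have h1 : ∀ ε : J → Bool, t ^ (2 * κ) * (∑ g, sg (ε g)) ^ (2 * κ) ≤ (2 * κ : ℝ) ^ (2 * κ) *
      Real.cosh (t * ∑ g, sg (ε g)) := by
    intro ε
    have h2 := pow_le_cosh (t * ∑ g, sg (ε g)) κ
    rw [mul_pow] at h2
    exact h2.trans (mul_le_mul_of_nonneg_right hf (Real.cosh_pos _).le)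
  have h3 : ∑ ε : J → Bool, Real.cosh (t * ∑ g, sg (ε g)) = (2 * Real.cosh t) ^ m := by
    have h4 : ∀ ε : J → Bool, Real.cosh (t * ∑ g, sg (ε g)) =
        (Real.exp (t * ∑ g, sg (ε g)) + Real.exp ((-t) * ∑ g, sg (ε g))) / 2 := by
      intro ε
      rw [Real.cosh_eq, neg_mul]
    rw [Finset.sum_congr rfl fun ε _ => h4 ε, ← Finset.sum_div, Finset.sum_add_distrib, sum_exp, sum_exp,
      Real.cosh_neg, hm]
    ring
  have h5 : (2 * Real.cosh t) ^ m ≤ 2 ^ m * Real.exp κ := by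
    rw [mul_pow]
    refine mul_le_mul_of_nonneg_left ?_ (by positivity)
    have h6 : Real.cosh t ≤ Real.exp (t ^ 2 / 2) := Real.cosh_le_exp_half_sq t
    have h7 : Real.exp (t ^ 2 / 2) ^ m = Real.exp κ := by
      rw [← Real.exp_nat_mul, ht2]
      congr 1
      field_simp
    rw [← h7]
    exact pow_le_pow_left₀ (Real.cosh_pos t).le h6 m
  have h8 : t ^ (2 * κ) * ∑ ε : J → Bool, (∑ g, sg (ε g)) ^ (2 * κ) ≤
      (2 * κ : ℝ) ^ (2 * κ) * (2 ^ m * Real.exp κ) := by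
    rw [Finset.mul_sum]
    refine (Finset.sum_le_sum fun ε _ => h1 ε).trans ?_
    rw [← Finset.mul_sum, h3]
    exact mul_le_mul_of_nonneg_left h5 (by positivity)
  have h9 : t ^ (2 * κ) * (2 ^ m * (2 * Real.exp 1 * κ * m) ^ κ) =
      (2 * κ : ℝ) ^ (2 * κ) * (2 ^ m * Real.exp κ) := by
    have h10 : t ^ (2 * κ) = (2 * κ / m) ^ κ := by rw [pow_mul, ht2]
    have h11 : Real.exp κ = Real.exp 1 ^ κ := by rw [← Real.exp_nat_mul, mul_one]
    rw [h10, h11]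
    have h12 : (2 * κ / m : ℝ) ^ κ * (2 ^ m * (2 * Real.exp 1 * κ * m) ^ κ) =
        2 ^ m * ((2 * κ / m) * (2 * Real.exp 1 * κ * m)) ^ κ := by
      rw [mul_pow (2 * κ / m : ℝ)]
      ring
    have h13 : (2 * κ : ℝ) ^ (2 * κ) * (2 ^ m * Real.exp 1 ^ κ) = 2 ^ m * ((2 * κ) ^ 2 * Real.exp 1) ^ κ := by
      rw [mul_pow ((2 * κ : ℝ) ^ 2), ← pow_mul]
      ring
    rw [h12, h13]
    congr 2
    field_simp
  have h14 : 0 < t ^ (2 * κ) := by positivity
  rw [← h9] at h8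
  exact le_of_mul_le_mul_left h8 h14

end Pool.Agent.Q277.SPN
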