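import Pool.Agent.Q277.SPN.SM

/-!
# Project SPN of helper98, job WORD (helper277)
-/

set_option autoImplicit false

open scoped Matrix.Norms.L2Operator Matrix
open Finset

namespace Pool.Agent.Q277.SPN

open Pool.Agent.Q98.SPN Pool.Agent.H172R2.GS

theorem norm_one_le {d : ℕ} : ‖(1 : Matrix (Fin d) (Fin d) ℂ)‖ ≤ 1 := by
  have h := Matrix.l2_opNorm_conjTranspose_mul_self (1 : Matrix (Fin d) (Fin d) ℂ)
  rw [Matrix.conjTranspose_one, one_mul] at h
  by_contra hcon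
  push Not at hcon
  nlinarith

theorem diag_le {d : ℕ} (P : Matrix (Fin d) (Fin d) ℂ) (i : Fin d) : ‖P i i‖ ≤ ‖P‖ := by
  obtain ⟨T, hT⟩ : ∃ T, T = Matrix.toEuclideanCLM (n := Fin d) (𝕜 := ℂ) P := ⟨_, rfl⟩
  have h1 : ‖T‖ = ‖P‖ := by
    rw [hT, Matrix.l2_opNorm_toEuclideanCLM]
  have h2 : (T (WithLp.toLp 2 (Pi.single i (1 : ℂ)))) i = P i i := by
    rw [hT, Matrix.toEuclideanCLM_toLp]
    simp
  rw [← h2, ← h1]
  refine (PiLp.norm_apply_le _ i).trans ?_
  refine (T.le_opNorm _).trans ?_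
  simp

theorem trace_le {d : ℕ} (P : Matrix (Fin d) (Fin d) ℂ) (h : ‖P‖ ≤ 1) : (Matrix.trace P).re ≤ d := by
  have h1 : (Matrix.trace P).re = ∑ i, (P i i).re := by
    unfold Matrix.trace
    rw [Complex.re_sum]
    rfl
  rw [h1]
  calc ∑ i, (P i i).re ≤ ∑ _i : Fin d, (1 : ℝ) := Finset.sum_le_sum fun i _ =>
        (Complex.re_le_norm _).trans ((diag_le P i).trans h)
    _ = d := by simp

/-- the expansion into words -/
theorem words {J : Type} [Fintype J] [DecidableEq J] {d : ℕ} (A : J → Matrix (Fin d) (Fin d) ℂ)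
    (hA : ∀ g, ‖A g‖ ≤ 1) (κ : ℕ) :
    ∃ (Ω : Type) (_ : Fintype Ω) (a : Ω → J → ℕ) (P : Ω → Matrix (Fin d) (Fin d) ℂ),
      (∀ ω, ‖P ω‖ ≤ 1) ∧
      (∀ ε : J → Bool, ((XX A ε)ᴴ * XX A ε) ^ κ = ∑ ω, ((∏ g, sg (ε g) ^ a ω g : ℝ) : ℂ) • P ω) ∧
      ∀ ε : J → Bool, (∑ g, sg (ε g)) ^ (2 * κ) = ∑ ω, ∏ g, sg (ε g) ^ a ω g := by
  induction κ with
  | zero =>
    refine ⟨Unit, inferInstance, fun _ _ => 0, fun _ => 1, fun _ => norm_one_le, fun ε => ?_, fun ε => ?_⟩
    · simp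
    · simp
  | succ κ ih =>
    obtain ⟨Ω, _, a, P, hP, h1, h2⟩ := ih
    have hc : ∀ (ε : J → Bool) (ω : Ω) (g h : J),
        ∏ x, sg (ε x) ^ (a ω x + (if x = g then 1 else 0) + (if x = h then 1 else 0)) =
        (∏ x, sg (ε x) ^ a ω x) * (sg (ε g) * sg (ε h)) := by
      intro ε ω g h
      have h3 : ∀ x, sg (ε x) ^ (a ω x + (if x = g then 1 else 0) + (if x = h then 1 else 0)) =
          sg (ε x) ^ a ω x * ((if x = g then sg (ε x) else 1) * (if x = h then sg (ε x) else 1)) := by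
        intro x
        rw [pow_add, pow_add, mul_assoc]
        congr 2
        · split_ifs <;> simp
        · split_ifs <;> simp
      rw [Finset.prod_congr rfl fun x _ => h3 x, Finset.prod_mul_distrib, Finset.prod_mul_distrib]
      rw [Finset.prod_ite_eq' univ g, Finset.prod_ite_eq' univ h]
      simp
    refine ⟨Ω × (J × J), inferInstance,
      fun w x => a w.1 x + (if x = w.2.1 then 1 else 0) + (if x = w.2.2 then 1 else 0),
      fun w => P w.1 * ((A w.2.1)ᴴ * A w.2.2), fun w => ?_, fun ε => ?_, fun ε => ?_⟩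
    · refine (Matrix.l2_opNorm_mul _ _).trans ?_
      have h3 : ‖(A w.2.1)ᴴ * A w.2.2‖ ≤ 1 := by
        refine (Matrix.l2_opNorm_mul _ _).trans ?_
        rw [Matrix.l2_opNorm_conjTranspose]
        exact mul_le_one₀ (hA _) (norm_nonneg _) (hA _)
      exact mul_le_one₀ (hP _) (norm_nonneg _) h3
    · rw [pow_succ, h1 ε]
      have h3 : (XX A ε)ᴴ = ∑ g, ((sg (ε g) : ℝ) : ℂ) • (A g)ᴴ := by
        unfold XX
        rw [Matrix.conjTranspose_sum]
        refine Finset.sum_congr rfl fun g _ => ?_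
        rw [Matrix.conjTranspose_smul]
        congr 1
        exact Complex.conj_ofReal _
      have h4 : (XX A ε)ᴴ * XX A ε = ∑ w : J × J, ((sg (ε w.1) * sg (ε w.2) : ℝ) : ℂ) • ((A w.1)ᴴ * A w.2) := by
        rw [h3]
        unfold XX
        rw [Finset.sum_mul_sum, Fintype.sum_prod_type]
        refine Finset.sum_congr rfl fun g _ => Finset.sum_congr rfl fun h _ => ?_
        rw [Matrix.smul_mul, Matrix.mul_smul, smul_smul, Complex.ofReal_mul]
      rw [h4, Finset.sum_mul_sum, Fintype.sum_prod_type]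
      refine Finset.sum_congr rfl fun ω _ => Finset.sum_congr rfl fun w _ => ?_
      rw [Matrix.smul_mul, Matrix.mul_smul, smul_smul, hc ε ω w.1 w.2, Complex.ofReal_mul (∏ x, sg (ε x) ^ a ω x)]
    · have h5 : 2 * (κ + 1) = 2 * κ + 2 := by ring
      rw [h5, pow_add, h2 ε, pow_two, Finset.sum_mul_sum, ← Fintype.sum_prod_type', Finset.sum_mul_sum,
        Fintype.sum_prod_type]
      exact Finset.sum_congr rfl fun ω _ => Finset.sum_congr rfl fun w _ => (hc ε ω w.1 w.2).symm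

/-- **JOB WORD** -/
theorem WORD_ok : S_WORD := by
  intro J _ _ d A κ hA
  obtain ⟨Ω, _, a, P, hP, h1, h2⟩ := words A hA κ
  have h3 : ∀ ε : J → Bool, tk κ (XX A ε) = ∑ ω, (∏ g, sg (ε g) ^ a ω g) * (Matrix.trace (P ω)).re := by
    intro ε
    unfold tk
    rw [h1 ε, Matrix.trace_sum, Complex.re_sum]
    refine Finset.sum_congr rfl fun ω _ => ?_
    rw [Matrix.trace_smul, smul_eq_mul, Complex.re_ofReal_mul]
  have h4 : ∀ ω : Ω, 0 ≤ ∑ ε : J → Bool, ∏ g, sg (ε g) ^ a ω g := by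
    intro ω
    rw [sum_prod (fun g b => sg b ^ a ω g)]
    refine Finset.prod_nonneg fun g _ => ?_
    rw [Fintype.sum_bool]
    unfold sg
    simp only [if_true, Bool.false_eq_true, if_false, one_pow]
    rcases neg_one_pow_eq_or ℝ (a ω g) with h | h
    · rw [h]; norm_num
    · rw [h]; norm_num
  calc ∑ ε : J → Bool, tk κ (XX A ε) =
        ∑ ε : J → Bool, ∑ ω, (∏ g, sg (ε g) ^ a ω g) * (Matrix.trace (P ω)).re :=
          Finset.sum_congr rfl fun ε _ => h3 ε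
    _ = ∑ ω, (∑ ε : J → Bool, ∏ g, sg (ε g) ^ a ω g) * (Matrix.trace (P ω)).re := by
        rw [Finset.sum_comm]
        exact Finset.sum_congr rfl fun ω _ => by rw [Finset.sum_mul]
    _ ≤ ∑ ω, (∑ ε : J → Bool, ∏ g, sg (ε g) ^ a ω g) * d :=
        Finset.sum_le_sum fun ω _ => mul_le_mul_of_nonneg_left (trace_le _ (hP ω)) (h4 ω)
    _ = d * ∑ ε : J → Bool, (∑ g, sg (ε g)) ^ (2 * κ) := by
        rw [← Finset.sum_mul, mul_comm, Finset.sum_comm]
        congr 1
        exact Finset.sum_congr rfl fun ε _ => (h2 ε).symm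

end Pool.Agent.Q277.SPN
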